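import Pool.Agent.Helper19.HV.XS

set_option autoImplicit false

namespace Pool.Agent.Helper19.HV

noncomputable section

open PL

private lemma y3a_al {U N : Type} [AddCommGroup U] [Module ℚ U] [AddCommGroup N] [Module ℚ N]
    (A : U →ₗ[ℚ] U →ₗ[ℚ] N) (h : Al2 A) (v w : U) : A v w = -A w v := by
  have h1 := h (v + w)
  simp only [map_add, LinearMap.add_apply] at h1
  rw [h v, h w, zero_add, add_zero] at h1
  exact eq_neg_of_add_eq_zero_right h1

theorem mY3A {F : Type} [Field F] {cV : V F →ₗ[ℚ] V (RatFunc F)}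
    {lc : V (RatFunc F) →ₗ[ℚ] V F} {od : V (RatFunc F) →ₗ[ℚ] (F →₀ ℚ)} (hs : Spl cV lc od)
    (hEX2 : ∀ {N : Type} [AddCommGroup N] [Module ℚ N] (ψ : P1 (RatFunc F) → N), Kil 2 ψ →
      (∀ c, ψ (cst c) = 0) → ∃ A : V (RatFunc F) →ₗ[ℚ] V (RatFunc F) →ₗ[ℚ] N, Al2 A ∧
        (∀ (c : F) v, A (lg (RatFunc.C c)) v = 0) ∧ ∀ x, ψ x = A (cl1 x) (cl x))
    {L : P1 (RatFunc F) → (V (RatFunc F) →ₗ[ℚ] V (RatFunc F) →ₗ[ℚ] ℚ)} (hL : Ls L) :
    ∃ χ : F4 F, Al4 χ ∧
      (∀ (a b c : F) k, χ (lg (RatFunc.C a)) (lg (RatFunc.C b)) (lg (RatFunc.C c)) k = 0) ∧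
      ∀ x (u w : F), L x (lg (RatFunc.C u)) (lg (RatFunc.C w)) =
        χ (cl1 x) (cl x) (lg (RatFunc.C u)) (lg (RatFunc.C w)) := by
  let ψ : P1 (RatFunc F) → (V F →ₗ[ℚ] V F →ₗ[ℚ] ℚ) := fun x => (L x).compl₁₂ cV cV
  have hψa : ∀ x u w, ψ x u w = L x (cV u) (cV w) := fun x u w => rfl
  have hk : Kil 2 ψ := by
    intro α hα
    have h := hL.kil α hα
    rw [Finsupp.linearCombination_apply, Finsupp.sum] at h ⊢
    apply LinearMap.ext
    intro u
    apply LinearMap.ext
    intro w
    have h2 := congrArg (fun B : V (RatFunc F) →ₗ[ℚ] V (RatFunc F) →ₗ[ℚ] ℚ => B (cV u) (cV w)) h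
    simp only [LinearMap.coe_sum, Finset.sum_apply, LinearMap.smul_apply, LinearMap.zero_apply,
      hψa] at h2 ⊢
    exact h2
  have hc : ∀ c, ψ (cst c) = 0 := by
    intro c
    apply LinearMap.ext
    intro u
    apply LinearMap.ext
    intro w
    rw [hψa, LinearMap.zero_apply, LinearMap.zero_apply]
    have hu : u ∈ Submodule.span ℚ (Set.range (lg : F → V F)) := by rw [span_lg]; trivial
    induction hu using Submodule.span_induction with
    | mem x hx =>
      obtain ⟨y, rfl⟩ := hx
      rw [hs.cV_lg, hL.cst]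
    | zero => rw [map_zero, map_zero, LinearMap.zero_apply]
    | add x y _ _ h1 h2 => rw [map_add, map_add, LinearMap.add_apply, h1, h2, add_zero]
    | smul r x _ h1 => rw [map_smul, map_smul, LinearMap.smul_apply, h1, smul_zero]
  obtain ⟨A, hA2, hAc, hAψ⟩ := hEX2 ψ hk hc
  have hAa : ∀ v w, A v w = -A w v := y3a_al A hA2
  have hAc' : ∀ (c : F) v, A v (lg (RatFunc.C c)) = 0 := by
    intro c v
    rw [hAa, hAc, neg_zero]
  let f : V (RatFunc F) → V (RatFunc F) → V F → V F → ℚ := fun a b u w => (A a b u w - A a b w u) / 2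
  have fa : ∀ a u w, f a a u w = 0 := by
    intro a u w
    simp only [f, hA2 a, LinearMap.zero_apply, sub_self, zero_div]
  have fu : ∀ a b u, f a b u u = 0 := by
    intro a b u
    simp only [f, sub_self, zero_div]
  have fc : ∀ (c : F) b u w, f (lg (RatFunc.C c)) b u w = 0 := by
    intro c b u w
    simp only [f, hAc, LinearMap.zero_apply, sub_self, zero_div]
  have fc' : ∀ (c : F) b u w, f b (lg (RatFunc.C c)) u w = 0 := by
    intro c b u w
    simp only [f, hAc', LinearMap.zero_apply, sub_self, zero_div]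
  obtain ⟨χ, hχ⟩ := mk4 (fun v1 v2 v3 v4 : V (RatFunc F) =>
      f v1 v2 (lc v3) (lc v4) - f v1 v3 (lc v2) (lc v4) + f v1 v4 (lc v2) (lc v3) +
        f v2 v3 (lc v1) (lc v4) - f v2 v4 (lc v1) (lc v3) + f v3 v4 (lc v1) (lc v2))
    (by
      intro b c d
      constructor
      · intro x y
        simp only [f, map_add, LinearMap.add_apply]
        ring
      · intro r x
        simp only [f, map_smul, LinearMap.smul_apply, smul_eq_mul]
        ring)
    (by
      intro b c d
      constructor
      · intro x y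
        simp only [f, map_add, LinearMap.add_apply]
        ring
      · intro r x
        simp only [f, map_smul, LinearMap.smul_apply, smul_eq_mul]
        ring)
    (by
      intro b c d
      constructor
      · intro x y
        simp only [f, map_add, LinearMap.add_apply]
        ring
      · intro r x
        simp only [f, map_smul, LinearMap.smul_apply, smul_eq_mul]
        ring)
    (by
      intro b c d
      constructor
      · intro x y
        simp only [f, map_add, LinearMap.add_apply]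
        ring
      · intro r x
        simp only [f, map_smul, LinearMap.smul_apply, smul_eq_mul]
        ring)
  refine ⟨χ, ⟨?_, ?_, ?_⟩, ?_, ?_⟩
  · intro v w z
    rw [hχ, fa, fu]
    ring
  · intro v w z
    rw [hχ, fa, fu]
    ring
  · intro v w z
    rw [hχ, fa, fu]
    ring
  · intro a b c k
    rw [hχ]
    simp only [fc, fc']
    ring
  · intro x u w
    rw [hχ]
    simp only [fc, fc', hs.lc_C]
    have e1 : ∀ u w : F, A (cl1 x) (cl x) (lg u) (lg w) =
        L x (lg (RatFunc.C u)) (lg (RatFunc.C w)) := by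
      intro u w
      rw [← hAψ, hψa, hs.cV_lg, hs.cV_lg]
    have e2 := y3a_al (L x) (hL.alt x) (lg (RatFunc.C w)) (lg (RatFunc.C u))
    simp only [f, e1, e2]
    ring

end

end Pool.Agent.Helper19.HV
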